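import Mathlib

/-!
# Cutting two separated finite sets by a convex set with convex complement

`cut` : `N`, `F` finite, `f < f` on `N × F`, general position of the images under `(f, g)`; for `1 ≤ a < |N|` and
`b ≤ |F|` there is a convex set `H` with convex complement containing exactly `a` points of `N` and `b` points of `F`.
-/

set_option autoImplicit false

namespace Pool.Agent.Helper33.TVT

open Finset Filter Topology

/-- half-spaces together with an open half of their boundary are convex -/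
theorem convex_lex {E : Type*} [AddCommGroup E] [Module ℝ E] (h₁ h₂ : E →ₗ[ℝ] ℝ) (s k : ℝ) :
    Convex ℝ {x | h₁ x < s ∨ (h₁ x = s ∧ h₂ x < k)} := by
  intro x hx y hy a b ha hb hab
  simp only [Set.mem_ofPred_eq] at hx hy ⊢
  rw [map_add, map_smul, map_smul, map_add, map_smul, map_smul, smul_eq_mul, smul_eq_mul, smul_eq_mul, smul_eq_mul]
  rcases ha.eq_or_lt with ha' | ha'
  · have hb' : b = 1 := by linarith
    subst hb'
    rw [← ha', zero_mul, one_mul, zero_add, zero_mul, one_mul, zero_add]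
    exact hy
  rcases hb.eq_or_lt with hb' | hb'
  · have ha'' : a = 1 := by linarith
    subst ha''
    rw [← hb', zero_mul, one_mul, add_zero, zero_mul, one_mul, add_zero]
    exact hx
  have hb1 : b = 1 - a := by linarith
  have e3 : a * s + b * s = s := by rw [hb1]; ring
  have e6 : a * k + b * k = k := by rw [hb1]; ring
  rcases hx with hx | ⟨hx, hx'⟩
  · left
    have hy' : h₁ y ≤ s := by rcases hy with hy | ⟨hy, _⟩ <;> linarith
    have := mul_lt_mul_of_pos_left hx ha'
    have := mul_le_mul_of_nonneg_left hy' hb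
    linarith
  · rcases hy with hy | ⟨hy, hy'⟩
    · left
      have := mul_lt_mul_of_pos_left hy hb'
      rw [hx]
      linarith
    · right
      constructor
      · rw [hx, hy]
        exact e3
      · have := mul_lt_mul_of_pos_left hx' ha'
        have := mul_lt_mul_of_pos_left hy' hb'
        linarith

theorem convex_lex_compl {E : Type*} [AddCommGroup E] [Module ℝ E] (h₁ h₂ : E →ₗ[ℝ] ℝ) (s k : ℝ) :
    Convex ℝ {x | h₁ x < s ∨ (h₁ x = s ∧ h₂ x < k)}ᶜ := by
  intro x hx y hy a b ha hb hab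
  simp only [Set.mem_compl_iff, Set.mem_ofPred_eq, not_or, not_lt, not_and] at hx hy ⊢
  rw [map_add, map_smul, map_smul, map_add, map_smul, map_smul, smul_eq_mul, smul_eq_mul, smul_eq_mul, smul_eq_mul]
  have hb1 : b = 1 - a := by linarith
  have e1 := mul_le_mul_of_nonneg_left hx.1 ha
  have e2 := mul_le_mul_of_nonneg_left hy.1 hb
  have e3 : a * s + b * s = s := by rw [hb1]; ring
  refine ⟨by linarith, fun h => ?_⟩
  rcases ha.eq_or_lt with ha' | ha'
  · have hb' : b = 1 := by linarith
    subst hb'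
    rw [← ha'] at h ⊢
    rw [zero_mul, one_mul, zero_add] at h ⊢
    exact hy.2 h
  rcases hb.eq_or_lt with hb' | hb'
  · have ha'' : a = 1 := by linarith
    subst ha''
    rw [← hb'] at h ⊢
    rw [zero_mul, one_mul, add_zero] at h ⊢
    exact hx.2 h
  have hx1 : h₁ x = s := by
    by_contra hne
    have hlt : s < h₁ x := lt_of_le_of_ne hx.1 (Ne.symm hne)
    have := mul_lt_mul_of_pos_left hlt ha'
    linarith
  have hy1 : h₁ y = s := by
    by_contra hne
    have hlt : s < h₁ y := lt_of_le_of_ne hy.1 (Ne.symm hne)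
    have := mul_lt_mul_of_pos_left hlt hb'
    linarith
  have e4 := mul_le_mul_of_nonneg_left (hx.2 hx1) ha
  have e5 := mul_le_mul_of_nonneg_left (hy.2 hy1) hb
  have e6 : a * k + b * k = k := by rw [hb1]; ring
  linarith

/-- the element of rank `a` -/
theorem exists_rank {α : Type*} (S : Finset α) (f : α → ℝ) (hf : Set.InjOn f S) (a : ℕ) (ha : a < S.card) :
    ∃ x ∈ S, (S.filter (fun y => f y < f x)).card = a := by
  classical
  induction a with
  | zero =>
    have hS : S.Nonempty := card_pos.1 (by omega)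
    obtain ⟨x, hx, hx'⟩ := S.exists_min_image f hS
    refine ⟨x, hx, ?_⟩
    rw [card_eq_zero, filter_eq_empty_iff]
    intro y hy
    exact not_lt.2 (hx' y hy)
  | succ a ih =>
    obtain ⟨x, hx, hxa⟩ := ih (by omega)
    have h1 : (S.filter (fun y => f x < f y)).Nonempty := by
      rw [← card_pos]
      by_contra h
      have h2 : (S.filter (fun y => f x < f y)).card = 0 := by omega
      have h3 : S ⊆ insert x (S.filter (fun y => f y < f x)) := by
        intro y hy
        rcases lt_trichotomy (f y) (f x) with h4 | h4 | h4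
        · exact mem_insert_of_mem (mem_filter.2 ⟨hy, h4⟩)
        · rw [hf hy hx h4]; exact mem_insert_self _ _
        · rw [card_eq_zero, filter_eq_empty_iff] at h2
          exact absurd h4 (h2 hy)
      have h4 := card_le_card h3
      have h5 := card_insert_le x (S.filter (fun y => f y < f x))
      omega
    obtain ⟨z, hz, hz'⟩ := (S.filter (fun y => f x < f y)).exists_min_image f h1
    rw [mem_filter] at hz
    refine ⟨z, hz.1, ?_⟩
    have h2 : S.filter (fun y => f y < f z) = insert x (S.filter (fun y => f y < f x)) := by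
      ext y
      rw [mem_filter, mem_insert, mem_filter]
      constructor
      · rintro ⟨hy, hyz⟩
        rcases lt_trichotomy (f y) (f x) with h4 | h4 | h4
        · exact Or.inr ⟨hy, h4⟩
        · exact Or.inl (hf hy hx h4)
        · exact absurd (hz' y (mem_filter.2 ⟨hy, h4⟩)) (not_le.2 hyz)
      · rintro (rfl | ⟨hy, hyx⟩)
        · exact ⟨hx, hz.2⟩
        · exact ⟨hy, hyx.trans hz.2⟩
    rw [h2, card_insert_of_notMem, hxa]
    rw [mem_filter]
    exact fun h => lt_irrefl _ h.2

/-- the first `m` elements -/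
theorem exists_split {α : Type*} (S : Finset α) (f : α → ℝ) (hf : Set.InjOn f S) (m : ℕ) (hm : m ≤ S.card) :
    ∃ N F : Finset α, Disjoint N F ∧ (∀ x, x ∈ S ↔ x ∈ N ∨ x ∈ F) ∧ N.card = m ∧ ∀ x ∈ N, ∀ y ∈ F, f x < f y := by
  classical
  rcases hm.eq_or_lt with h | h
  · exact ⟨S, ∅, disjoint_empty_right _, fun x => by simp, h.symm, fun x _ y hy => absurd hy (notMem_empty y)⟩
  · obtain ⟨x, hx, hxa⟩ := exists_rank S f hf m h
    refine ⟨S.filter (fun y => f y < f x), S.filter (fun y => ¬ f y < f x), disjoint_filter_filter_not _ _ _, ?_, hxa, ?_⟩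
    · intro y
      rw [mem_filter, mem_filter]
      tauto
    · intro y hy z hz
      rw [mem_filter] at hy hz
      linarith [hy.2, not_lt.1 hz.2]

/-- general position of the images of `S` under `(f, g)` -/
structure Gen {E : Type*} [AddCommGroup E] [Module ℝ E] (f g : E →ₗ[ℝ] ℝ) (S : Finset E) : Prop where
  inj : Set.InjOn f S
  line : ∀ t : ℝ, ∀ x ∈ S, ∀ y ∈ S, ∀ z ∈ S, x ≠ y → x ≠ z → y ≠ z → g x - t * f x = g y - t * f y →
    g x - t * f x ≠ g z - t * f z

theorem Gen.mono {E : Type*} [AddCommGroup E] [Module ℝ E] {f g : E →ₗ[ℝ] ℝ} {S T : Finset E} (h : Gen f g S)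
    (hT : T ⊆ S) : Gen f g T :=
  ⟨fun _ hx _ hy hxy => h.inj (hT hx) (hT hy) hxy, fun t x hx y hy z hz => h.line t x (hT hx) y (hT hy) z (hT hz)⟩

theorem isOpen_count {α : Type*} (S : Finset α) (u v : α → ℝ) (k : ℕ) (r : ℝ) :
    IsOpen {t : ℝ | k ≤ (S.filter (fun x => u x - t * v x < r)).card} := by
  rw [isOpen_iff_mem_nhds]
  intro t₀ ht₀
  have h : ∀ᶠ t in 𝓝 t₀, ∀ x ∈ S.filter (fun x => u x - t₀ * v x < r), u x - t * v x < r := by
    rw [eventually_all_finset]
    intro x hx
    rw [mem_filter] at hx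
    have hc : ContinuousAt (fun t : ℝ => u x - t * v x) t₀ := by fun_prop
    exact hc.eventually_lt continuousAt_const hx.2
  filter_upwards [h] with t ht
  refine le_trans ht₀ (card_le_card ?_)
  intro x hx
  exact mem_filter.2 ⟨(mem_filter.1 hx).1, ht x hx⟩

theorem isOpen_count' {α : Type*} (S : Finset α) (u v : α → ℝ) (k : ℕ) (r : ℝ) :
    IsOpen {t : ℝ | k ≤ (S.filter (fun x => r < u x - t * v x)).card} := by
  have h := isOpen_count S (fun x => -u x) (fun x => -v x) k (-r)
  have e : ∀ t : ℝ, (S.filter (fun x => r < u x - t * v x)) = S.filter (fun x => -u x - t * -v x < -r) := by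
    intro t
    apply filter_congr
    intro x _
    constructor <;> intro h <;> linarith
  simp only [e]
  exact h

theorem exists_slope {α : Type*} (N F : Finset α) (u v : α → ℝ) (hlt : ∀ x ∈ N, ∀ y ∈ F, v x < v y) :
    ∃ t : ℝ, ∀ x ∈ N, ∀ y ∈ F, u x - t * v x < u y - t * v y := by
  have h : ∀ᶠ t : ℝ in atBot, ∀ x ∈ N, ∀ y ∈ F, u x - t * v x < u y - t * v y := by
    rw [eventually_all_finset]
    intro x hx
    rw [eventually_all_finset]
    intro y hy
    have h1 := hlt x hx y hy
    filter_upwards [eventually_lt_atBot ((u y - u x) / (v y - v x))] with t ht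
    have h2 : 0 < v y - v x := by linarith
    rw [lt_div_iff₀ h2] at ht
    linarith
  exact h.exists

theorem exists_slope' {α : Type*} (N F : Finset α) (u v : α → ℝ) (hlt : ∀ x ∈ N, ∀ y ∈ F, v x < v y) :
    ∃ t : ℝ, ∀ x ∈ N, ∀ y ∈ F, u y - t * v y < u x - t * v x := by
  have h : ∀ᶠ t : ℝ in atTop, ∀ x ∈ N, ∀ y ∈ F, u y - t * v y < u x - t * v x := by
    rw [eventually_all_finset]
    intro x hx
    rw [eventually_all_finset]
    intro y hy
    have h1 := hlt x hx y hy
    filter_upwards [eventually_gt_atTop ((u y - u x) / (v y - v x))] with t ht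
    have h2 : 0 < v y - v x := by linarith
    rw [div_lt_iff₀ h2] at ht
    linarith
  exact h.exists

/-- a slope for which no threshold is too early or too late -/
theorem exists_balanced {α : Type*} (N F : Finset α) (u v : α → ℝ) (hlt : ∀ x ∈ N, ∀ y ∈ F, v x < v y)
    {a b : ℕ} (ha : 1 ≤ a) (ha' : a < N.card) (hb : 1 ≤ b) (hb' : b < F.card) :
    ∃ t : ℝ, (∀ s, ¬ (a + 1 ≤ (N.filter (fun x => u x - t * v x < s)).card ∧
        F.card + 1 ≤ b + (F.filter (fun y => s < u y - t * v y)).card)) ∧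
      (∀ s, ¬ (b + 1 ≤ (F.filter (fun y => u y - t * v y < s)).card ∧
        N.card + 1 ≤ a + (N.filter (fun x => s < u x - t * v x)).card)) := by
  by_contra hcon
  push Not at hcon
  let X : Set ℝ := {t | ∃ s, a + 1 ≤ (N.filter (fun x => u x - t * v x < s)).card ∧
        F.card + 1 ≤ b + (F.filter (fun y => s < u y - t * v y)).card}
  let Y : Set ℝ := {t | ∃ s, b + 1 ≤ (F.filter (fun y => u y - t * v y < s)).card ∧
        N.card + 1 ≤ a + (N.filter (fun x => s < u x - t * v x)).card}
  have hX : IsOpen X := by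
    have : X = ⋃ s : ℝ, ({t : ℝ | a + 1 ≤ (N.filter (fun x => u x - t * v x < s)).card} ∩
        {t : ℝ | F.card + 1 - b ≤ (F.filter (fun y => s < u y - t * v y)).card}) := by
      ext t
      simp only [X, Set.mem_ofPred_eq, Set.mem_iUnion, Set.mem_inter_iff]
      exact exists_congr fun s => and_congr Iff.rfl (by omega)
    rw [this]
    exact isOpen_iUnion fun s => (isOpen_count _ _ _ _ _).inter (isOpen_count' _ _ _ _ _)
  have hY : IsOpen Y := by
    have : Y = ⋃ s : ℝ, ({t : ℝ | b + 1 ≤ (F.filter (fun x => u x - t * v x < s)).card} ∩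
        {t : ℝ | N.card + 1 - a ≤ (N.filter (fun y => s < u y - t * v y)).card}) := by
      ext t
      simp only [Y, Set.mem_ofPred_eq, Set.mem_iUnion, Set.mem_inter_iff]
      exact exists_congr fun s => and_congr Iff.rfl (by omega)
    rw [this]
    exact isOpen_iUnion fun s => (isOpen_count _ _ _ _ _).inter (isOpen_count' _ _ _ _ _)
  have hcov : (Set.univ : Set ℝ) ⊆ X ∪ Y := by
    intro t _
    by_cases h : t ∈ X
    · exact Or.inl h
    · right
      obtain ⟨s, hs⟩ := hcon t (fun s => by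
        intro h1
        by_contra h2
        exact h ⟨s, h1, not_lt.1 h2⟩)
      exact ⟨s, hs.1, hs.2⟩
  have hNe : N.Nonempty := card_pos.1 (by omega)
  have hFe : F.Nonempty := card_pos.1 (by omega)
  have hXn : (Set.univ ∩ X).Nonempty := by
    obtain ⟨t, ht⟩ := exists_slope N F u v hlt
    obtain ⟨x₀, hx₀, hx₀'⟩ := N.exists_max_image (fun x => u x - t * v x) hNe
    obtain ⟨y₀, hy₀, hy₀'⟩ := F.exists_min_image (fun x => u x - t * v x) hFe
    refine ⟨t, Set.mem_univ _, ((u x₀ - t * v x₀) + (u y₀ - t * v y₀)) / 2, ?_, ?_⟩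
    · rw [filter_true_of_mem]
      · exact ha'
      · intro x hx
        have := hx₀' x hx
        have := ht x₀ hx₀ y₀ hy₀
        linarith
    · rw [filter_true_of_mem]
      · omega
      · intro y hy
        have := hy₀' y hy
        have := ht x₀ hx₀ y₀ hy₀
        linarith
  have hYn : (Set.univ ∩ Y).Nonempty := by
    obtain ⟨t, ht⟩ := exists_slope' N F u v hlt
    obtain ⟨x₀, hx₀, hx₀'⟩ := N.exists_min_image (fun x => u x - t * v x) hNe
    obtain ⟨y₀, hy₀, hy₀'⟩ := F.exists_max_image (fun x => u x - t * v x) hFe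
    refine ⟨t, Set.mem_univ _, ((u x₀ - t * v x₀) + (u y₀ - t * v y₀)) / 2, ?_, ?_⟩
    · rw [filter_true_of_mem]
      · exact hb'
      · intro y hy
        have := hy₀' y hy
        have := ht x₀ hx₀ y₀ hy₀
        linarith
    · rw [filter_true_of_mem]
      · omega
      · intro x hx
        have := hx₀' x hx
        have := ht x₀ hx₀ y₀ hy₀
        linarith
  obtain ⟨t, -, ⟨s, h1, h2⟩, s', h3, h4⟩ := isPreconnected_univ X Y hX hY hcov hXn hYn
  have e1 : ∀ (S : Finset α) (r : ℝ), (S.filter (fun x => u x - t * v x ≤ r)).card +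
      (S.filter (fun x => r < u x - t * v x)).card = S.card := by
    intro S r
    rw [← card_filter_add_card_filter_not (s := S) (fun x => u x - t * v x ≤ r)]
    congr 2
    apply filter_congr
    intro x _
    exact not_le.symm
  have e2 := e1 F s
  have e3 := e1 N s'
  rcases le_total s s' with h | h
  · have e4 : (N.filter (fun x => u x - t * v x < s)).card ≤ (N.filter (fun x => u x - t * v x ≤ s')).card := by
      apply card_le_card
      intro x hx
      rw [mem_filter] at hx ⊢
      exact ⟨hx.1, (hx.2.le).trans h⟩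
    omega
  · have e4 : (F.filter (fun x => u x - t * v x < s')).card ≤ (F.filter (fun x => u x - t * v x ≤ s)).card := by
      apply card_le_card
      intro x hx
      rw [mem_filter] at hx ⊢
      exact ⟨hx.1, (hx.2.le).trans h⟩
    omega

theorem exists_delta {α : Type*} (W : Finset α) (φ : α → ℝ) (s : ℝ) :
    ∃ δ : ℝ, 0 < δ ∧ ∀ x ∈ W, φ x ≠ s → δ < |φ x - s| := by
  have h : ∀ᶠ δ : ℝ in 𝓝[>] 0, ∀ x ∈ W, φ x ≠ s → δ < |φ x - s| := by
    rw [eventually_all_finset]
    intro x _
    by_cases hx : φ x = s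
    · exact Eventually.of_forall fun _ h => absurd hx h
    · have h1 : 0 < |φ x - s| := abs_pos.2 (sub_ne_zero.2 hx)
      filter_upwards [Ioo_mem_nhdsGT h1] with δ hδ _
      exact hδ.2
  obtain ⟨δ, h1, h2⟩ := (h.and self_mem_nhdsWithin).exists
  exact ⟨δ, h2, h1⟩

theorem exists_threshold {α : Type*} (W : Finset α) (φ : α → ℝ) (m : ℕ) (hm : 1 ≤ m) (hm' : m ≤ W.card) :
    ∃ s : ℝ, (W.filter (fun x => φ x < s)).card < m ∧ m ≤ (W.filter (fun x => φ x ≤ s)).card := by
  classical
  have hW : W.Nonempty := card_pos.1 (by omega)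
  have h1 : (W.filter (fun x => m ≤ (W.filter (fun y => φ y ≤ φ x)).card)).Nonempty := by
    obtain ⟨x, hx, hx'⟩ := W.exists_max_image φ hW
    refine ⟨x, mem_filter.2 ⟨hx, ?_⟩⟩
    rw [filter_true_of_mem fun y hy => hx' y hy]
    exact hm'
  obtain ⟨z, hz, hz'⟩ := exists_min_image _ φ h1
  rw [mem_filter] at hz
  refine ⟨φ z, ?_, hz.2⟩
  by_contra hcon
  have h2 : (W.filter (fun x => φ x < φ z)).Nonempty := card_pos.1 (by omega)
  obtain ⟨w, hw, hw'⟩ := exists_max_image _ φ h2
  rw [mem_filter] at hw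
  have h3 : W.filter (fun x => φ x < φ z) ⊆ W.filter (fun y => φ y ≤ φ w) := by
    intro y hy
    exact mem_filter.2 ⟨(mem_filter.1 hy).1, hw' y hy⟩
  have h4 := card_le_card h3
  have h5 := hz' w (mem_filter.2 ⟨hw.1, by omega⟩)
  exact absurd hw.2 (not_lt.2 h5)

/-- ham-sandwich cut with prescribed numbers, general case -/
theorem cut_aux {E : Type*} [AddCommGroup E] [Module ℝ E] {f g : E →ₗ[ℝ] ℝ} [DecidableEq E] {N F : Finset E}
    (hG : Gen f g (N ∪ F)) (hlt : ∀ x ∈ N, ∀ y ∈ F, f x < f y) {a b : ℕ} (ha : 1 ≤ a) (ha' : a < N.card)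
    (hb : 1 ≤ b) (hb' : b < F.card) :
    ∃ H : Set E, Convex ℝ H ∧ Convex ℝ Hᶜ ∧ (∃ N' : Finset E, N'.card = a ∧ ∀ x, x ∈ N' ↔ x ∈ N ∧ x ∈ H) ∧
      ∃ F' : Finset E, F'.card = b ∧ ∀ x, x ∈ F' ↔ x ∈ F ∧ x ∈ H := by
  classical
  obtain ⟨t, hX, hY⟩ := exists_balanced N F g f hlt ha ha' hb hb'
  set φ : E →ₗ[ℝ] ℝ := g - t • f with hφ
  have hφx : ∀ x, φ x = g x - t * f x := fun x => by simp [hφ]
  simp only [← hφx] at hX hY
  have hdis : Disjoint N F := by
    rw [disjoint_left]
    intro x hx hx'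
    exact lt_irrefl _ (hlt x hx x hx')
  have hW : (N ∪ F).card = N.card + F.card := card_union_of_disjoint hdis
  obtain ⟨s, hs1, hs2⟩ := exists_threshold (N ∪ F) φ (a + b) (by omega) (by omega)
  have u1 : ∀ (p : E → Prop) [DecidablePred p], ((N ∪ F).filter p).card = (N.filter p).card + (F.filter p).card := by
    intro p _
    rw [filter_union, card_union_of_disjoint (disjoint_filter_filter hdis)]
  rw [u1] at hs1 hs2
  obtain ⟨δ, hδ, hδ'⟩ := exists_delta (N ∪ F) φ s
  -- counts
  have c1 : ∀ S : Finset E, S ⊆ N ∪ F → (S.filter (fun x => φ x < s - δ)) = S.filter (fun x => φ x < s) := by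
    intro S hS
    apply filter_congr
    intro x hx
    constructor
    · intro h; linarith
    · intro h
      have := hδ' x (hS hx) h.ne
      rw [abs_of_neg (by linarith)] at this
      linarith
  have c2 : ∀ S : Finset E, S ⊆ N ∪ F → (S.filter (fun x => φ x < s + δ)) = S.filter (fun x => φ x ≤ s) := by
    intro S hS
    apply filter_congr
    intro x hx
    constructor
    · intro h
      by_contra h'
      have := hδ' x (hS hx) (not_le.1 h').ne'
      rw [abs_of_pos (by linarith [not_le.1 h'])] at this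
      linarith
    · intro h; linarith
  have c3 : ∀ S : Finset E, S ⊆ N ∪ F →
      (S.filter (fun x => s - δ < φ x)).card + (S.filter (fun x => φ x < s)).card = S.card := by
    intro S hS
    rw [add_comm, ← card_filter_add_card_filter_not (s := S) (fun x => φ x < s)]
    congr 2
    apply filter_congr
    intro x hx
    constructor
    · intro h h'
      have := hδ' x (hS hx) h'.ne
      rw [abs_of_neg (by linarith)] at this
      linarith
    · intro h
      linarith [not_lt.1 h]
  have c4 : ∀ S : Finset E, S ⊆ N ∪ F →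
      (S.filter (fun x => s + δ < φ x)).card + (S.filter (fun x => φ x ≤ s)).card = S.card := by
    intro S hS
    rw [add_comm, ← card_filter_add_card_filter_not (s := S) (fun x => φ x ≤ s)]
    congr 2
    apply filter_congr
    intro x hx
    constructor
    · intro h h'
      linarith
    · intro h
      have := hδ' x (hS hx) (not_le.1 h).ne'
      rw [abs_of_pos (by linarith [not_le.1 h])] at this
      linarith
  have sN : N ⊆ N ∪ F := subset_union_left
  have sF : F ⊆ N ∪ F := subset_union_right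
  have x1 := hX (s - δ)
  have x2 := hX (s + δ)
  have y1 := hY (s - δ)
  have y2 := hY (s + δ)
  rw [c1 N sN] at x1
  rw [c2 N sN] at x2
  rw [c1 F sF] at y1
  rw [c2 F sF] at y2
  have n3 := c3 N sN
  have f3 := c3 F sF
  have n4 := c4 N sN
  have f4 := c4 F sF
  have t1 : ∀ S : Finset E, (S.filter (fun x => φ x ≤ s)).card = (S.filter (fun x => φ x < s)).card +
      (S.filter (fun x => φ x = s)).card := by
    intro S
    rw [← card_union_of_disjoint]
    · congr 1
      ext x
      simp only [mem_filter, mem_union, le_iff_lt_or_eq]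
      tauto
    · rw [disjoint_left]
      intro x hx hx'
      rw [mem_filter] at hx hx'
      exact absurd hx'.2 hx.2.ne
  have tN := t1 N
  have tF := t1 F
  -- at most two ties
  have tie : ((N ∪ F).filter (fun x => φ x = s)).card ≤ 2 := by
    by_contra h
    obtain ⟨x, hx, y, hy, z, hz, hxy, hxz, hyz⟩ := two_lt_card.1 (not_le.1 h)
    rw [mem_filter] at hx hy hz
    refine hG.line t x hx.1 y hy.1 z hz.1 hxy hxz hyz ?_ ?_
    · rw [← hφx, ← hφx, hx.2, hy.2]
    · rw [← hφx, ← hφx, hx.2, hz.2]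
  have tie2 := tie
  rw [u1] at tie2
  have b1 : (N.filter (fun x => φ x < s)).card ≤ a := by by_contra h; omega
  have b2 : (F.filter (fun x => φ x < s)).card ≤ b := by by_contra h; omega
  have b3 : a ≤ (N.filter (fun x => φ x ≤ s)).card := by by_contra h; omega
  have b4 : b ≤ (F.filter (fun x => φ x ≤ s)).card := by by_contra h; omega
  by_cases hall : a = (N.filter (fun x => φ x ≤ s)).card ∧ b = (F.filter (fun x => φ x ≤ s)).card
  · refine ⟨{x | φ x < s ∨ (φ x = s ∧ (0 : E →ₗ[ℝ] ℝ) x < 1)}, convex_lex _ _ _ _, convex_lex_compl _ _ _ _,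
      ⟨N.filter (fun x => φ x ≤ s), hall.1.symm, fun x => ?_⟩, ⟨F.filter (fun x => φ x ≤ s), hall.2.symm, fun x => ?_⟩⟩
    · simp only [mem_filter, Set.mem_ofPred_eq, LinearMap.zero_apply, zero_lt_one, and_true, le_iff_lt_or_eq]
    · simp only [mem_filter, Set.mem_ofPred_eq, LinearMap.zero_apply, zero_lt_one, and_true, le_iff_lt_or_eq]
  · -- exactly two ties, one of them has to be chosen
    have h2 : ((N ∪ F).filter (fun x => φ x = s)).card = 2 := by
      rw [u1]
      omega
    have h3 : ∃ z ∈ (N ∪ F).filter (fun x => φ x = s),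
        (z ∈ N ∧ a = (N.filter (fun x => φ x < s)).card + 1 ∧ b = (F.filter (fun x => φ x < s)).card) ∨
        (z ∈ F ∧ a = (N.filter (fun x => φ x < s)).card ∧ b = (F.filter (fun x => φ x < s)).card + 1) := by
      rcases b1.eq_or_lt with h4 | h4
      · have h5 : 0 < (F.filter (fun x => φ x = s)).card := by omega
        obtain ⟨z, hz⟩ := card_pos.1 h5
        rw [mem_filter] at hz
        exact ⟨z, mem_filter.2 ⟨sF hz.1, hz.2⟩, Or.inr ⟨hz.1, h4.symm, by omega⟩⟩
      · have h5 : 0 < (N.filter (fun x => φ x = s)).card := by omega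
        obtain ⟨z, hz⟩ := card_pos.1 h5
        rw [mem_filter] at hz
        exact ⟨z, mem_filter.2 ⟨sN hz.1, hz.2⟩, Or.inl ⟨hz.1, by omega, by omega⟩⟩
    obtain ⟨z, hz, hz'⟩ := h3
    have h4 : ∃ w ∈ (N ∪ F).filter (fun x => φ x = s), w ≠ z ∧ ∀ x ∈ (N ∪ F).filter (fun x => φ x = s), x = z ∨ x = w := by
      obtain ⟨x, y, hxy, hxy'⟩ := card_eq_two.1 h2
      rw [hxy'] at hz ⊢
      rw [mem_insert, mem_singleton] at hz
      rcases hz with rfl | rfl
      · exact ⟨y, by simp, hxy.symm, fun w hw => by simpa using hw⟩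
      · exact ⟨x, by simp, hxy, fun w hw => by rw [mem_insert, mem_singleton] at hw; exact hw.symm⟩
    obtain ⟨w, hw, hwz, hw'⟩ := h4
    have h5 : ∃ h₂ : E →ₗ[ℝ] ℝ, h₂ z < h₂ w := by
      rcases lt_trichotomy (f z) (f w) with h | h | h
      · exact ⟨f, h⟩
      · exact absurd (hG.inj (mem_coe.2 (mem_filter.1 hz).1) (mem_coe.2 (mem_filter.1 hw).1) h).symm hwz
      · exact ⟨-f, by simpa using h⟩
    obtain ⟨h₂, h₂'⟩ := h5
    rw [mem_filter] at hz hw
    have mem : ∀ x ∈ N ∪ F, (φ x < s ∨ (φ x = s ∧ h₂ x < h₂ w)) ↔ (φ x < s ∨ x = z) := by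
      intro x hx
      constructor
      · rintro (h | ⟨h, h'⟩)
        · exact Or.inl h
        · rcases hw' x (mem_filter.2 ⟨hx, h⟩) with rfl | rfl
          · exact Or.inr rfl
          · exact absurd h' (lt_irrefl _)
      · rintro (h | rfl)
        · exact Or.inl h
        · exact Or.inr ⟨hz.2, h₂'⟩
    have znot : ∀ S : Finset E, z ∉ S.filter (fun x => φ x < s) := by
      intro S h
      exact absurd hz.2 (mem_filter.1 h).2.ne
    refine ⟨{x | φ x < s ∨ (φ x = s ∧ h₂ x < h₂ w)}, convex_lex _ _ _ _, convex_lex_compl _ _ _ _, ?_⟩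
    rcases hz' with ⟨hzN, e1, e2⟩ | ⟨hzF, e1, e2⟩
    · have hzF : z ∉ F := disjoint_left.1 hdis hzN
      refine ⟨⟨insert z (N.filter (fun x => φ x < s)), ?_, fun x => ?_⟩, ⟨F.filter (fun x => φ x < s), e2.symm, fun x => ?_⟩⟩
      · rw [card_insert_of_notMem (znot N), e1]
      · rw [mem_insert, mem_filter, Set.mem_ofPred_eq]
        constructor
        · rintro (rfl | ⟨h, h'⟩)
          · exact ⟨hzN, (mem x (sN hzN)).2 (Or.inr rfl)⟩
          · exact ⟨h, Or.inl h'⟩
        · rintro ⟨h, h'⟩
          rcases (mem x (sN h)).1 h' with h'' | h''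
          · exact Or.inr ⟨h, h''⟩
          · exact Or.inl h''
      · rw [mem_filter, Set.mem_ofPred_eq]
        constructor
        · rintro ⟨h, h'⟩
          exact ⟨h, Or.inl h'⟩
        · rintro ⟨h, h'⟩
          rcases (mem x (sF h)).1 h' with h'' | h''
          · exact ⟨h, h''⟩
          · rw [h''] at h; exact absurd h hzF
    · have hzN : z ∉ N := disjoint_right.1 hdis hzF
      refine ⟨⟨N.filter (fun x => φ x < s), e1.symm, fun x => ?_⟩, ⟨insert z (F.filter (fun x => φ x < s)), ?_, fun x => ?_⟩⟩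
      · rw [mem_filter, Set.mem_ofPred_eq]
        constructor
        · rintro ⟨h, h'⟩
          exact ⟨h, Or.inl h'⟩
        · rintro ⟨h, h'⟩
          rcases (mem x (sN h)).1 h' with h'' | h''
          · exact ⟨h, h''⟩
          · rw [h''] at h; exact absurd h hzN
      · rw [card_insert_of_notMem (znot F), e2]
      · rw [mem_insert, mem_filter, Set.mem_ofPred_eq]
        constructor
        · rintro (rfl | ⟨h, h'⟩)
          · exact ⟨hzF, (mem x (sF hzF)).2 (Or.inr rfl)⟩
          · exact ⟨h, Or.inl h'⟩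
        · rintro ⟨h, h'⟩
          rcases (mem x (sF h)).1 h' with h'' | h''
          · exact Or.inr ⟨h, h''⟩
          · exact Or.inl h''

/-- ham-sandwich cut with prescribed numbers -/
theorem cut {E : Type*} [AddCommGroup E] [Module ℝ E] {f g : E →ₗ[ℝ] ℝ} [DecidableEq E] {N F : Finset E}
    (hG : Gen f g (N ∪ F)) (hlt : ∀ x ∈ N, ∀ y ∈ F, f x < f y) {a b : ℕ} (ha : 1 ≤ a) (ha' : a < N.card)
    (hb : b ≤ F.card) :
    ∃ H : Set E, Convex ℝ H ∧ Convex ℝ Hᶜ ∧ (∃ N' : Finset E, N'.card = a ∧ ∀ x, x ∈ N' ↔ x ∈ N ∧ x ∈ H) ∧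
      ∃ F' : Finset E, F'.card = b ∧ ∀ x, x ∈ F' ↔ x ∈ F ∧ x ∈ H := by
  rcases Nat.eq_zero_or_pos b with h0 | h0
  · obtain ⟨x₀, hx₀, hx₀'⟩ := exists_rank N f (fun x hx y hy h => hG.inj (mem_coe.2 (subset_union_left (mem_coe.1 hx)))
      (mem_coe.2 (subset_union_left (mem_coe.1 hy))) h) a ha'
    refine ⟨{x | f x < f x₀ ∨ (f x = f x₀ ∧ (0 : E →ₗ[ℝ] ℝ) x < 0)}, convex_lex _ _ _ _, convex_lex_compl _ _ _ _,
      ⟨N.filter (fun x => f x < f x₀), hx₀', fun x => ?_⟩, ⟨∅, by simp [h0], fun x => ?_⟩⟩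
    · simp only [mem_filter, Set.mem_ofPred_eq, LinearMap.zero_apply, lt_irrefl, and_false, or_false]
    · simp only [notMem_empty, Set.mem_ofPred_eq, LinearMap.zero_apply, lt_irrefl, and_false, or_false, false_iff, not_and,
        not_lt]
      exact fun hx => (hlt x₀ hx₀ x hx).le
  rcases hb.eq_or_lt with hb' | hb'
  · obtain ⟨x₀, hx₀, hx₀'⟩ := exists_rank N (fun x => -f x) (fun x hx y hy h => hG.inj
      (mem_coe.2 (subset_union_left (mem_coe.1 hx))) (mem_coe.2 (subset_union_left (mem_coe.1 hy))) (neg_injective h)) a ha'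
    refine ⟨{x | (-f) x < -f x₀ ∨ ((-f) x = -f x₀ ∧ (0 : E →ₗ[ℝ] ℝ) x < 0)}, convex_lex _ _ _ _, convex_lex_compl _ _ _ _,
      ⟨N.filter (fun x => -f x < -f x₀), hx₀', fun x => ?_⟩, ⟨F, hb'.symm, fun x => ?_⟩⟩
    · simp only [mem_filter, Set.mem_ofPred_eq, LinearMap.zero_apply, lt_irrefl, and_false, or_false, LinearMap.neg_apply]
    · simp only [Set.mem_ofPred_eq, LinearMap.zero_apply, lt_irrefl, and_false, or_false, LinearMap.neg_apply]
      constructor
      · intro hx
        exact ⟨hx, by linarith [hlt x₀ hx₀ x hx]⟩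
      · exact fun h => h.1
  · exact cut_aux hG hlt ha ha' h0 hb'

end Pool.Agent.Helper33.TVT
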