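import Pool.Agent.Helper33.TVT.Tree

/-!
# Tverberg numbers of trees
-/

set_option autoImplicit false

namespace Pool.Agent.Helper33.TVT

open Finset

variable {E : Type*} [AddCommGroup E] [Module ℝ E]

/-- no `d + 1` points of `S` on a hyperplane -/
def GenPos (d : ℕ) (S : Finset E) : Prop :=
  ∀ T ⊆ S, T.card = d + 1 → ∀ (φ : E →ₗ[ℝ] ℝ) (b : ℝ), φ ≠ 0 → ¬ ∀ x ∈ T, φ x = b

/-- in general position no three points are collinear -/
theorem not_collinear [FiniteDimensional ℝ E] {d : ℕ} (hd : Module.finrank ℝ E = d) (h2 : 2 ≤ d) {S : Finset E}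
    (hS : GenPos d S) (hc : d + 1 ≤ S.card) {x y z : E} (hx : x ∈ S) (hy : y ∈ S) (hz : z ∈ S) (hxy : x ≠ y)
    (hxz : x ≠ z) (hyz : y ≠ z) (c : ℝ) : z - x ≠ c • (y - x) := by
  classical
  intro hcol
  have h3 : ({x, y, z} : Finset E).card = 3 := card_eq_three.2 ⟨x, y, z, hxy, hxz, hyz, rfl⟩
  have h3' : ({x, y, z} : Finset E) ⊆ S := by
    intro w hw
    simp only [mem_insert, mem_singleton] at hw
    rcases hw with rfl | rfl | rfl <;> assumption
  obtain ⟨T, hT1, hT2, hT3⟩ := exists_subsuperset_card_eq h3' (by omega : ({x, y, z} : Finset E).card ≤ d + 1) hc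
  set U := T \ {x, y, z} with hU
  have hUc : U.card = d - 2 := by
    rw [hU, card_sdiff_of_subset hT1, hT3, h3]
    omega
  let s : Finset E := insert (y - x) (U.image (fun u => u - x))
  have hs : s.card ≤ d - 1 := by
    have e1 : s.card ≤ (U.image (fun u => u - x)).card + 1 := card_insert_le (y - x) (U.image (fun u => u - x))
    have e2 : (U.image (fun u => u - x)).card ≤ U.card := card_image_le (s := U) (f := fun u => u - x)
    omega
  have hlt : Submodule.span ℝ (s : Set E) < ⊤ := by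
    apply Submodule.lt_top_of_finrank_lt_finrank
    have : Module.finrank ℝ (Submodule.span ℝ (s : Set E)) ≤ s.card := finrank_span_finset_le_card (R := ℝ) s
    rw [hd]
    omega
  obtain ⟨φ, hφ, hker⟩ := Submodule.exists_le_ker_of_lt_top _ hlt
  have hv : ∀ v ∈ s, φ v = 0 := fun v hv => LinearMap.mem_ker.1 (hker (Submodule.subset_span (mem_coe.2 hv)))
  refine hS T hT2 hT3 φ (φ x) hφ fun w hw => ?_
  have hyx : φ (y - x) = 0 := hv _ (mem_insert_self _ _)
  by_cases hw' : w ∈ ({x, y, z} : Finset E)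
  · simp only [mem_insert, mem_singleton] at hw'
    rcases hw' with rfl | rfl | rfl
    · rfl
    · rw [map_sub] at hyx
      linarith
    · have e := congrArg φ hcol
      rw [map_smul, hyx, smul_zero, map_sub] at e
      linarith
  · have e := hv (w - x) (mem_insert_of_mem (mem_image_of_mem _ (mem_sdiff.2 ⟨hw, hw'⟩)))
    rw [map_sub] at e
    linarith

/-- generic functionals -/
theorem exists_gen [FiniteDimensional ℝ E] {d : ℕ} (hd : Module.finrank ℝ E = d) (h2 : 2 ≤ d) {S : Finset E}
    (hS : GenPos d S) (hc : d + 1 ≤ S.card) : ∃ f g : E →ₗ[ℝ] ℝ, Gen f g S := by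
  classical
  obtain ⟨f, hf⟩ := Module.exists_dual_forall_apply_ne_zero (K := ℝ)
    (fun p : {p : S × S // p.1 ≠ p.2} => (p.1.2 : E) - (p.1.1 : E)) (fun p => by
      rw [sub_ne_zero]
      exact fun h => p.2 (Subtype.ext h).symm)
  have hf' : ∀ x ∈ S, ∀ y ∈ S, x ≠ y → f (y - x) ≠ 0 := fun x hx y hy hxy =>
    hf ⟨(⟨x, hx⟩, ⟨y, hy⟩), fun h => hxy (congrArg Subtype.val h)⟩
  obtain ⟨g, hg⟩ := Module.exists_dual_forall_apply_ne_zero (K := ℝ)
    (fun p : {p : S × S × S // p.1 ≠ p.2.1 ∧ p.1 ≠ p.2.2 ∧ p.2.1 ≠ p.2.2} =>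
      f ((p.1.2.1 : E) - (p.1.1 : E)) • ((p.1.2.2 : E) - (p.1.1 : E)) -
        f ((p.1.2.2 : E) - (p.1.1 : E)) • ((p.1.2.1 : E) - (p.1.1 : E))) (fun p => by
      obtain ⟨⟨x, y, z⟩, hxy, hxz, hyz⟩ := p
      intro h
      simp only at h
      have hxy' : (x : E) ≠ y := fun h => hxy (Subtype.ext h)
      have hxz' : (x : E) ≠ z := fun h => hxz (Subtype.ext h)
      have hyz' : (y : E) ≠ z := fun h => hyz (Subtype.ext h)
      have h0 := hf' x x.2 y y.2 hxy'
      refine not_collinear hd h2 hS hc x.2 y.2 z.2 hxy' hxz' hyz' (f ((z : E) - x) / f ((y : E) - x)) ?_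
      rw [sub_eq_zero] at h
      rw [div_eq_inv_mul, mul_smul, ← h, smul_smul, inv_mul_cancel₀ h0, one_smul])
  refine ⟨f, g, ⟨?_, ?_⟩⟩
  · intro x hx y hy hxy
    by_contra hne
    exact hf' x hx y hy hne (by rw [map_sub, hxy, sub_self])
  · intro t x hx y hy z hz hxy hxz hyz e1 e2
    have e3 := hg ⟨(⟨x, hx⟩, ⟨y, hy⟩, ⟨z, hz⟩), fun h => hxy (congrArg Subtype.val h),
      fun h => hxz (congrArg Subtype.val h), fun h => hyz (congrArg Subtype.val h)⟩
    apply e3
    simp only [map_sub, map_smul, smul_eq_mul]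
    have e4 : g y - g x = t * (f y - f x) := by linarith
    have e5 : g z - g x = t * (f z - f x) := by linarith
    rw [e4, e5]
    ring

/-- **every tree**: labels with the prescribed pairwise intersections -/
theorem tree_labels [FiniteDimensional ℝ E] {d : ℕ} (hd : Module.finrank ℝ E = d) (h2 : 2 ≤ d) {V : Type} [Fintype V]
    {G : SimpleGraph V} (hG : G.IsTree) {S : Finset E} (hS : GenPos d S)
    (hc : (d + 1) * (Fintype.card V - 1) + 1 ≤ S.card) :
    ∃ c : E → V, (∀ v, ∃ x ∈ S, c x = v) ∧ ∀ u v, u ≠ v →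
      (Meet {x | x ∈ S ∧ c x = u} {x | x ∈ S ∧ c x = v} ↔ G.Adj u v) := by
  classical
  obtain ⟨v₀, l, hnd, hall, hadj⟩ := exists_bt _ V G hG rfl
  have hcard : Fintype.card V = l.size + 1 := by
    have e1 : (BT.node v₀ l BT.nil).verts.toFinset = univ := by
      ext v
      simp only [List.mem_toFinset, hall v, mem_univ]
    have e2 := List.toFinset_card_of_nodup hnd
    rw [e1, card_univ, BT.length_verts] at e2
    rw [e2]
    simp [BT.size]
  have hnd' := hnd
  simp only [BT.verts, List.append_nil, List.nodup_cons] at hnd'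
  rw [hcard, Nat.add_sub_cancel] at hc
  have hSne : S.Nonempty := card_pos.1 (by omega)
  by_cases hl : l = BT.nil
  · -- one vertex
    have hone : ∀ v, v = v₀ := by
      intro v
      have := hall v
      rw [hl] at this
      simpa [BT.verts] using this
    refine ⟨fun _ => v₀, fun v => ?_, fun u v huv => absurd ((hone u).trans (hone v).symm) huv⟩
    obtain ⟨x, hx⟩ := hSne
    exact ⟨x, hx, (hone v).symm⟩
  · have hl1 : 1 ≤ l.size := by
      rcases l with _ | ⟨w, a, b⟩
      · exact absurd rfl hl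
      · simp only [BT.size]; omega
    have hc' : d + 1 ≤ S.card := by
      have : (d + 1) * 1 ≤ (d + 1) * l.size := Nat.mul_le_mul_left _ hl1
      omega
    obtain ⟨f, g, hfg⟩ := exists_gen hd h2 hS hc'
    obtain ⟨N, F, hdis, hmem, hN, hNF⟩ := exists_split S f hfg.inj 1 (by omega)
    have hSNF : S = N ∪ F := by
      ext x
      rw [hmem, mem_union]
    have hF : (d + 1) * l.size ≤ F.card := by
      have : S.card = N.card + F.card := by rw [hSNF, card_union_of_disjoint hdis]
      omega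
    have hatt := attach_of_place (place f g hd l hnd'.2)
    obtain ⟨c, h1, h3, h4, h5⟩ := hatt N F (card_pos.1 (by omega)) (hfg.mono fun x hx => (hmem x).2 (Or.inr hx)) hNF hF
    let c' : E → V := fun x => if x ∈ N then v₀ else (c x).getD v₀
    have cN : ∀ x ∈ N, c' x = v₀ := fun x hx => by simp only [c', if_pos hx]
    have cF : ∀ x ∈ F, c' x = (c x).getD v₀ := fun x hx => by
      simp only [c', if_neg (disjoint_right.1 hdis hx)]
    have cls₀ : {x | x ∈ S ∧ c' x = v₀} = ((N : Set E) ∪ (cls c F none : Set E)) := by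
      ext x
      rw [Set.mem_ofPred_eq, Set.mem_union, mem_coe, mem_coe, mem_cls, hmem]
      constructor
      · rintro ⟨hx | hx, hc⟩
        · exact Or.inl hx
        · rw [cF x hx] at hc
          rcases hcx : c x with _ | u
          · exact Or.inr ⟨hx, rfl⟩
          · rw [hcx, Option.getD_some] at hc
            exact absurd (h1 x hx u hcx) (hc ▸ hnd'.1)
      · rintro (hx | ⟨hx, hc⟩)
        · exact ⟨Or.inl hx, cN x hx⟩
        · exact ⟨Or.inr hx, by rw [cF x hx, hc, Option.getD_none]⟩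
    have cls₁ : ∀ u ∈ l.verts, {x | x ∈ S ∧ c' x = u} = (cls c F (some u) : Set E) := by
      intro u hu
      have hu₀ : u ≠ v₀ := fun h => hnd'.1 (h ▸ hu)
      ext x
      rw [Set.mem_ofPred_eq, mem_coe, mem_cls, hmem]
      constructor
      · rintro ⟨hx | hx, hc⟩
        · rw [cN x hx] at hc
          exact absurd hc.symm hu₀
        · rw [cF x hx] at hc
          rcases hcx : c x with _ | w
          · rw [hcx, Option.getD_none] at hc
            exact absurd hc.symm hu₀
          · rw [hcx, Option.getD_some] at hc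
            exact ⟨hx, by rw [hc]⟩
      · rintro ⟨hx, hc⟩
        exact ⟨Or.inr hx, by rw [cF x hx, hc, Option.getD_some]⟩
    have hall' : ∀ v, v = v₀ ∨ v ∈ l.verts := by
      intro v
      have := hall v
      simpa [BT.verts] using this
    have hrel : ∀ a b, (BT.node v₀ l BT.nil).rel a b ↔ (a = v₀ ∧ b ∈ l.roots) ∨ l.rel a b := by
      intro a b
      simp only [BT.rel, or_false]
    have h0u : ∀ u ∈ l.verts, (Meet {x | x ∈ S ∧ c' x = v₀} {x | x ∈ S ∧ c' x = u} ↔ G.Adj v₀ u) := by
      intro u hu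
      have hu₀ : u ≠ v₀ := fun h => hnd'.1 (h ▸ hu)
      rw [cls₀, cls₁ u hu, h4 u hu, hadj, hrel, hrel]
      constructor
      · intro h
        exact Or.inl (Or.inl ⟨rfl, h⟩)
      · rintro ((⟨_, h⟩ | h) | (⟨h, _⟩ | h))
        · exact h
        · exact absurd (l.rel_mem h).1 hnd'.1
        · exact absurd h hu₀
        · exact absurd (l.rel_mem h).2 hnd'.1
    refine ⟨c', ?_, ?_⟩
    · intro v
      rcases hall' v with rfl | hv
      · obtain ⟨x, hx⟩ := card_pos.1 (by omega : 0 < N.card)
        exact ⟨x, (hmem x).2 (Or.inl hx), cN x hx⟩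
      · obtain ⟨x, hx⟩ := h3 v hv
        have hx' : x ∈ (cls c F (some v) : Set E) := mem_coe.2 hx
        rw [← cls₁ v hv] at hx'
        exact ⟨x, hx'.1, hx'.2⟩
    · intro u v huv
      rcases hall' u with rfl | hu
      · rcases hall' v with rfl | hv
        · exact absurd rfl huv
        · exact h0u v hv
      · rcases hall' v with rfl | hv
        · rw [meet_comm, h0u u hu, G.adj_comm]
        · rw [cls₁ u hu, cls₁ v hv, h5 u hu v hv huv, hadj, hrel, hrel]
          have hu₀ : u ≠ v₀ := fun h => hnd'.1 (h ▸ hu)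
          have hv₀ : v ≠ v₀ := fun h => hnd'.1 (h ▸ hv)
          simp only [hu₀, hv₀, false_and, false_or]

end Pool.Agent.Helper33.TVT
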