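import Pool.Agent.Helper33.TVT.Cut

/-!
# Placing a rooted forest on a finite set of points

`BT V` : rooted forests with labels in `V` (first child, next sibling). `place` : the inductive statement.
-/

set_option autoImplicit false

namespace Pool.Agent.Helper33.TVT

open Finset

/-- rooted ordered forests: `node v l r` has the first root `v`, whose children are the roots of `l`; the other roots are
those of `r` -/
inductive BT (V : Type*) : Type _
  | nil : BT V
  | node (v : V) (l r : BT V) : BT V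

namespace BT

variable {V : Type*}

/-- number of vertices -/
def size : BT V → ℕ
  | nil => 0
  | node _ l r => l.size + r.size + 1

/-- number of roots -/
def nr : BT V → ℕ
  | nil => 0
  | node _ _ r => r.nr + 1

/-- the vertices -/
def verts : BT V → List V
  | nil => []
  | node v l r => v :: (l.verts ++ r.verts)

/-- the roots -/
def roots : BT V → List V
  | nil => []
  | node v _ r => v :: r.roots

/-- `b` is a child of `a` -/
def rel : BT V → V → V → Prop
  | nil, _, _ => False
  | node v l r, a, b => (a = v ∧ b ∈ l.roots) ∨ l.rel a b ∨ r.rel a b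

theorem nr_le_size (t : BT V) : t.nr ≤ t.size := by
  induction t with
  | nil => exact le_rfl
  | node v l r _ ihr => simp only [nr, size]; omega

theorem roots_subset (t : BT V) : ∀ x ∈ t.roots, x ∈ t.verts := by
  induction t with
  | nil => intro x hx; exact hx
  | node v l r _ ihr =>
    intro x hx
    simp only [roots, verts, List.mem_cons, List.mem_append] at hx ⊢
    rcases hx with hx | hx
    · exact Or.inl hx
    · exact Or.inr (Or.inr (ihr x hx))

theorem rel_mem (t : BT V) {a b : V} (h : t.rel a b) : a ∈ t.verts ∧ b ∈ t.verts := by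
  induction t with
  | nil => exact h.elim
  | node v l r ihl ihr =>
    simp only [rel, verts, List.mem_cons, List.mem_append] at h ⊢
    rcases h with ⟨h1, h2⟩ | h | h
    · exact ⟨Or.inl h1, Or.inr (Or.inl (l.roots_subset b h2))⟩
    · exact ⟨Or.inr (Or.inl (ihl h).1), Or.inr (Or.inl (ihl h).2)⟩
    · exact ⟨Or.inr (Or.inr (ihr h).1), Or.inr (Or.inr (ihr h).2)⟩

theorem length_verts (t : BT V) : t.verts.length = t.size := by
  induction t with
  | nil => rfl
  | node v l r ihl ihr => simp only [verts, size, List.length_cons, List.length_append, ihl, ihr]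

end BT

variable {E : Type*} [AddCommGroup E] [Module ℝ E] {V : Type*}

open scoped Classical in
/-- the points of `S` with label `o` -/
noncomputable def cls {E V : Type*} (c : E → Option V) (S : Finset E) (o : Option V) : Finset E :=
  S.filter (fun x => c x = o)

theorem mem_cls {E V : Type*} {c : E → Option V} {S : Finset E} {o : Option V} {x : E} : x ∈ cls c S o ↔ x ∈ S ∧ c x = o := by
  classical
  unfold cls
  rw [mem_filter]

/-- the hulls of two sets meet -/
def Meet (A B : Set E) : Prop := (convexHull ℝ A ∩ convexHull ℝ B).Nonempty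

theorem Meet.symm {A B : Set E} (h : Meet A B) : Meet B A := by
  unfold Meet at h ⊢
  rwa [Set.inter_comm]

theorem meet_comm {A B : Set E} : Meet A B ↔ Meet B A := ⟨Meet.symm, Meet.symm⟩

theorem Meet.mono {A B A' B' : Set E} (h : Meet A B) (hA : A ⊆ A') (hB : B ⊆ B') : Meet A' B' :=
  Set.Nonempty.mono (Set.inter_subset_inter (convexHull_mono hA) (convexHull_mono hB)) h

theorem not_meet_of_convex {A B H : Set E} (hH : Convex ℝ H) (hH' : Convex ℝ Hᶜ) (hA : A ⊆ H) (hB : B ⊆ Hᶜ) :
    ¬ Meet A B := by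
  rintro ⟨x, hx, hx'⟩
  exact (convexHull_min hB hH' hx') (convexHull_min hA hH hx)

theorem not_meet_of_lt {A B : Finset E} (f : E →ₗ[ℝ] ℝ) (h : ∀ x ∈ A, ∀ y ∈ B, f x < f y) :
    ¬ Meet (A : Set E) (B : Set E) := by
  rcases A.eq_empty_or_nonempty with hA | hA
  · subst hA
    rintro ⟨x, hx, _⟩
    simp at hx
  rcases B.eq_empty_or_nonempty with hB | hB
  · subst hB
    rintro ⟨x, _, hx⟩
    simp at hx
  obtain ⟨x, hx, hx'⟩ := A.exists_max_image f hA
  refine not_meet_of_convex (convex_lex f 0 (f x) 1) (convex_lex_compl f 0 (f x) 1) ?_ ?_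
  · intro y hy
    have h1 := hx' y hy
    rcases h1.lt_or_eq with h2 | h2
    · exact Or.inl h2
    · exact Or.inr ⟨h2, by simp⟩
  · intro y hy
    have h1 := h x hx y hy
    rintro (h2 | h2)
    · exact absurd h2 (not_lt.2 h1.le)
    · exact absurd h2.1 h1.ne'

/-- Radon's theorem with an anchor `q`: the side of the anchor is `insert q A`, the other side `B` is not empty -/
theorem radon_anchor [FiniteDimensional ℝ E] (N : Finset E) (q : E) (hN : Module.finrank ℝ E + 1 ≤ N.card) :
    ∃ B ⊆ N, B.Nonempty ∧ Meet (insert q {x | x ∈ N ∧ x ∉ B}) (B : Set E) := by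
  classical
  let e : Option N → E := fun o => o.elim q (fun x => (x : E))
  have h1 : ¬ AffineIndependent ℝ e := by
    intro h
    have h2 := h.card_le_finrank_succ
    have h3 : Fintype.card (Option N) = N.card + 1 := by simp
    have h4 := Submodule.finrank_le (vectorSpan ℝ (Set.range e))
    omega
  obtain ⟨I, hI⟩ := Convex.radon_partition h1
  have key : ∀ J : Set (Option N), none ∈ J → (convexHull ℝ (e '' J) ∩ convexHull ℝ (e '' Jᶜ)).Nonempty →
      ∃ B ⊆ N, B.Nonempty ∧ Meet (insert q {x | x ∈ N ∧ x ∉ B}) (B : Set E) := by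
    intro J hJ hmeet
    refine ⟨N.filter (fun x => ∃ h : x ∈ N, some ⟨x, h⟩ ∉ J), filter_subset _ _, ?_, ?_⟩
    · obtain ⟨z, _, hz⟩ := hmeet
      rcases (e '' Jᶜ).eq_empty_or_nonempty with h2 | h2
      · rw [h2, convexHull_empty] at hz
        exact hz.elim
      · obtain ⟨y, o, ho, rfl⟩ := h2
        rcases o with _ | x
        · exact absurd hJ ho
        · exact ⟨x, mem_filter.2 ⟨x.2, x.2, ho⟩⟩
    · refine Meet.mono hmeet ?_ ?_
      · rintro y ⟨o, ho, rfl⟩
        rcases o with _ | x
        · exact Set.mem_insert _ _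
        · refine Set.mem_insert_of_mem _ ⟨x.2, fun hx => ?_⟩
          obtain ⟨_, h, h'⟩ := mem_filter.1 hx
          exact h' ho
      · rintro y ⟨o, ho, rfl⟩
        rcases o with _ | x
        · exact absurd hJ ho
        · exact mem_coe.2 (mem_filter.2 ⟨x.2, x.2, ho⟩)
  by_cases h : none ∈ I
  · exact key I h hI
  · refine key Iᶜ h ?_
    rw [compl_compl, Set.inter_comm]
    exact hI

/-- **the inductive statement for a forest**: near points `N`, far points `F`, anchor `q` -/
def Place (f g : E →ₗ[ℝ] ℝ) (d : ℕ) (t : BT V) : Prop :=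
  ∀ (N F S : Finset E) (q : E), (∀ x, x ∈ S ↔ x ∈ N ∨ x ∈ F) → Gen f g S → (∀ x ∈ N, ∀ y ∈ F, f x < f y) →
    N.card = (d + 1) * t.nr → (d + 1) * t.size ≤ F.card + N.card → (t = BT.nil → F = ∅) →
    ∃ c : E → Option V,
      (∀ x ∈ S, ∀ v, c x = some v → v ∈ t.verts) ∧
      (∀ x ∈ F, c x ≠ none) ∧
      (∀ v ∈ t.verts, (cls c S (some v)).Nonempty) ∧
      (∀ v ∈ t.verts, v ∉ t.roots → ∀ x ∈ N, c x ≠ some v) ∧
      (∀ v ∈ t.roots, Meet (insert q (cls c N none : Set E)) (cls c S (some v) : Set E)) ∧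
      (∀ u ∈ t.verts, ∀ v ∈ t.verts, u ≠ v →
        (Meet (cls c S (some u) : Set E) (cls c S (some v) : Set E) ↔ t.rel u v ∨ t.rel v u))

/-- the statement for a root whose part contains `B` and whose children are the roots of `t` -/
def Attach (f g : E →ₗ[ℝ] ℝ) (d : ℕ) (t : BT V) : Prop :=
  ∀ (B G : Finset E), B.Nonempty → Gen f g G → (∀ x ∈ B, ∀ y ∈ G, f x < f y) → (d + 1) * t.size ≤ G.card →
    ∃ c : E → Option V,
      (∀ x ∈ G, ∀ v, c x = some v → v ∈ t.verts) ∧
      (∀ v ∈ t.verts, (cls c G (some v)).Nonempty) ∧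
      (∀ v ∈ t.verts, Meet ((B : Set E) ∪ (cls c G none : Set E)) (cls c G (some v) : Set E) ↔ v ∈ t.roots) ∧
      (∀ u ∈ t.verts, ∀ v ∈ t.verts, u ≠ v →
        (Meet (cls c G (some u) : Set E) (cls c G (some v) : Set E) ↔ t.rel u v ∨ t.rel v u))

theorem attach_of_place {f g : E →ₗ[ℝ] ℝ} {d : ℕ} {t : BT V} (h : Place f g d t) : Attach f g d t := by
  classical
  intro B G hB hG hlt hcard
  by_cases ht : t = BT.nil
  · subst ht
    refine ⟨fun _ => none, fun x _ v hv => by simp at hv, ?_, ?_, ?_⟩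
    · intro v hv; simp [BT.verts] at hv
    · intro v hv; simp [BT.verts] at hv
    · intro u hu; simp [BT.verts] at hu
  have hnr : (d + 1) * t.nr ≤ G.card := le_trans (Nat.mul_le_mul_left _ t.nr_le_size) hcard
  obtain ⟨N, F, hdis, hmem, hNc, hNF⟩ := exists_split G f hG.inj _ hnr
  have hGc : F.card + N.card = G.card := by
    have : G = N ∪ F := by
      ext x
      rw [hmem, mem_union]
    rw [this, card_union_of_disjoint hdis, add_comm]
  obtain ⟨q, hq⟩ := hB
  obtain ⟨c, h1, h2, h3, h4, h5, h6⟩ := h N F G q hmem hG hNF hNc (by rw [hGc]; exact hcard) (fun h => absurd h ht)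
  have hcn : cls c G none = cls c N none := by
    ext x
    rw [mem_cls, mem_cls, hmem]
    constructor
    · rintro ⟨hx | hx, hc⟩
      · exact ⟨hx, hc⟩
      · exact absurd hc (h2 x hx)
    · rintro ⟨hx, hc⟩
      exact ⟨Or.inl hx, hc⟩
  refine ⟨c, h1, h3, ?_, h6⟩
  intro v hv
  constructor
  · intro hm
    by_contra hr
    have h7 := h4 v hv hr
    have h8 : ∀ x ∈ B ∪ cls c N none, ∀ y ∈ cls c G (some v), f x < f y := by
      intro x hx y hy
      rw [mem_cls, hmem] at hy
      have hyF : y ∈ F := by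
        rcases hy.1 with hy1 | hy1
        · exact absurd hy.2 (h7 y hy1)
        · exact hy1
      rw [mem_union, mem_cls] at hx
      rcases hx with hx | hx
      · exact hlt x hx y ((hmem y).2 (Or.inr hyF))
      · exact hNF x hx.1 y hyF
    refine not_meet_of_lt f h8 ?_
    rw [coe_union, ← hcn]
    exact hm
  · intro hr
    refine (h5 v hr).mono ?_ subset_rfl
    rw [hcn]
    intro x hx
    rcases hx with rfl | hx
    · exact Or.inl hq
    · exact Or.inr hx

theorem place_nil (f g : E →ₗ[ℝ] ℝ) (d : ℕ) : Place f g d (BT.nil : BT V) := by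
  intro N F S q hS hG hlt hN hF hnil
  have hF0 := hnil rfl
  have hN0 : N = ∅ := by
    rw [← card_eq_zero, hN]; simp [BT.nr]
  subst hF0
  subst hN0
  refine ⟨fun _ => none, fun x _ v hv => by simp at hv, fun x hx => absurd hx (notMem_empty x), ?_, ?_, ?_, ?_⟩
  · intro v hv; simp [BT.verts] at hv
  · intro v hv; simp [BT.verts] at hv
  · intro v hv; simp [BT.roots] at hv
  · intro u hu; simp [BT.verts] at hu

/-- one tree -/
theorem place_tree [FiniteDimensional ℝ E] {f g : E →ₗ[ℝ] ℝ} {d : ℕ} (hd : Module.finrank ℝ E = d) {v : V} {l : BT V}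
    (hv : v ∉ l.verts) (hl : Attach f g d l) : Place f g d (BT.node v l BT.nil) := by
  classical
  intro N F S q hS hG hlt hN hF _
  have hN' : N.card = d + 1 := by rw [hN]; simp [BT.nr]
  obtain ⟨B, hBN, hB, hmeet⟩ := radon_anchor N q (by rw [hd, hN'])
  have hFS : F ⊆ S := fun x hx => (hS x).2 (Or.inr hx)
  have hNS : N ⊆ S := fun x hx => (hS x).2 (Or.inl hx)
  obtain ⟨c, h1, h2, h3, h4⟩ := hl B F hB (hG.mono hFS) (fun x hx y hy => hlt x (hBN hx) y hy) (by
    have : (d + 1) * (BT.node v l BT.nil).size = (d + 1) * l.size + (d + 1) := by simp only [BT.size]; ring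
    rw [this, hN'] at hF
    omega)
  have hdis : ∀ x, x ∈ N → x ∉ F := fun x hx hx' => lt_irrefl _ (hlt x hx x hx')
  let c' : E → Option V := fun x => if x ∈ N then (if x ∈ B then some v else none) else some ((c x).getD v)
  have cB : ∀ x ∈ B, c' x = some v := fun x hx => by simp only [c', if_pos (hBN hx), if_pos hx]
  have cA : ∀ x ∈ N, x ∉ B → c' x = none := fun x hx hx' => by simp only [c', if_pos hx, if_neg hx']
  have cF : ∀ x ∈ F, c' x = some ((c x).getD v) := fun x hx => by simp only [c', if_neg (fun h => hdis x h hx)]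
  have clsv : cls c' S (some v) = B ∪ cls c F none := by
    ext x
    rw [mem_cls, mem_union, mem_cls, hS]
    constructor
    · rintro ⟨hx | hx, hc⟩
      · by_cases hxB : x ∈ B
        · exact Or.inl hxB
        · rw [cA x hx hxB] at hc
          exact absurd hc (by simp)
      · rw [cF x hx, Option.some_inj] at hc
        refine Or.inr ⟨hx, ?_⟩
        rcases hcx : c x with _ | u
        · rfl
        · rw [hcx, Option.getD_some] at hc
          exact absurd (h1 x hx u hcx) (by rw [hc]; exact hv)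
    · rintro (hx | ⟨hx, hc⟩)
      · exact ⟨Or.inl (hBN hx), cB x hx⟩
      · refine ⟨Or.inr hx, ?_⟩
        rw [cF x hx, hc, Option.getD_none]
  have clsu : ∀ u ∈ l.verts, cls c' S (some u) = cls c F (some u) := by
    intro u hu
    have huv : u ≠ v := fun h => hv (h ▸ hu)
    ext x
    rw [mem_cls, mem_cls, hS]
    constructor
    · rintro ⟨hx | hx, hc⟩
      · by_cases hxB : x ∈ B
        · rw [cB x hxB, Option.some_inj] at hc
          exact absurd hc.symm huv
        · rw [cA x hx hxB] at hc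
          exact absurd hc (by simp)
      · rw [cF x hx, Option.some_inj] at hc
        refine ⟨hx, ?_⟩
        rcases hcx : c x with _ | w
        · rw [hcx, Option.getD_none] at hc
          exact absurd hc.symm huv
        · rw [hcx, Option.getD_some] at hc
          rw [hc]
    · rintro ⟨hx, hc⟩
      refine ⟨Or.inr hx, ?_⟩
      rw [cF x hx, hc, Option.getD_some]
  have clsn : (cls c' N none : Set E) = {x | x ∈ N ∧ x ∉ B} := by
    ext x
    rw [mem_coe, mem_cls, Set.mem_ofPred_eq]
    constructor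
    · rintro ⟨hx, hc⟩
      refine ⟨hx, fun hxB => ?_⟩
      rw [cB x hxB] at hc
      exact absurd hc (by simp)
    · rintro ⟨hx, hxB⟩
      exact ⟨hx, cA x hx hxB⟩
  have hrel : ∀ a b, (BT.node v l BT.nil).rel a b ↔ (a = v ∧ b ∈ l.roots) ∨ l.rel a b := by
    intro a b
    simp only [BT.rel, or_false]
  refine ⟨c', ?_, ?_, ?_, ?_, ?_, ?_⟩
  · intro x hx u hu
    simp only [BT.verts, List.append_nil, List.mem_cons]
    rcases (hS x).1 hx with hx | hx
    · by_cases hxB : x ∈ B
      · rw [cB x hxB, Option.some_inj] at hu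
        exact Or.inl hu.symm
      · rw [cA x hx hxB] at hu
        exact absurd hu (by simp)
    · rw [cF x hx, Option.some_inj] at hu
      rcases hcx : c x with _ | w
      · rw [hcx, Option.getD_none] at hu
        exact Or.inl hu.symm
      · rw [hcx, Option.getD_some] at hu
        exact Or.inr (hu ▸ h1 x hx w hcx)
  · intro x hx
    rw [cF x hx]
    simp
  · intro u hu
    simp only [BT.verts, List.append_nil, List.mem_cons] at hu
    rcases hu with rfl | hu
    · rw [clsv]
      exact hB.mono subset_union_left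
    · rw [clsu u hu]
      exact h2 u hu
  · intro u hu hr x hx hc
    simp only [BT.verts, List.append_nil, List.mem_cons] at hu
    simp only [BT.roots, List.mem_cons, List.not_mem_nil, or_false] at hr
    by_cases hxB : x ∈ B
    · rw [cB x hxB, Option.some_inj] at hc
      exact hr hc.symm
    · rw [cA x hx hxB] at hc
      exact absurd hc (by simp)
  · intro u hu
    simp only [BT.roots, List.mem_cons, List.not_mem_nil, or_false] at hu
    subst hu
    rw [clsn, clsv]
    exact hmeet.mono subset_rfl (coe_subset.2 subset_union_left)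
  · have hvu : ∀ u ∈ l.verts, (Meet (cls c' S (some v) : Set E) (cls c' S (some u) : Set E) ↔
        (BT.node v l BT.nil).rel v u ∨ (BT.node v l BT.nil).rel u v) := by
      intro u hu
      have huv : u ≠ v := fun h => hv (h ▸ hu)
      rw [clsv, clsu u hu, coe_union, h3 u hu, hrel, hrel]
      constructor
      · intro h
        exact Or.inl (Or.inl ⟨rfl, h⟩)
      · rintro ((⟨_, h⟩ | h) | (⟨h, _⟩ | h))
        · exact h
        · exact absurd (l.rel_mem h).1 hv
        · exact absurd h huv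
        · exact absurd (l.rel_mem h).2 hv
    intro u hu w hw huw
    simp only [BT.verts, List.append_nil, List.mem_cons] at hu hw
    rcases hu with rfl | hu
    · rcases hw with rfl | hw
      · exact absurd rfl huw
      · exact hvu w hw
    · rcases hw with rfl | hw
      · rw [meet_comm, hvu u hu, or_comm]
      · rw [clsu u hu, clsu w hw, h4 u hu w hw huw, hrel, hrel]
        have hu' : u ≠ v := fun h => hv (h ▸ hu)
        have hw' : w ≠ v := fun h => hv (h ▸ hw)
        simp only [hu', hw', false_and, false_or]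

/-- a forest with at least two roots -/
theorem place_node {f g : E →ₗ[ℝ] ℝ} {d : ℕ} {v : V} {l r : BT V} (hnd : (BT.node v l r).verts.Nodup)
    (hr : r ≠ BT.nil) (h1 : Place f g d (BT.node v l BT.nil)) (h2 : Place f g d r) :
    Place f g d (BT.node v l r) := by
  classical
  intro N F S q hS hG hlt hN hF _
  have hnr : 1 ≤ r.nr := by
    rcases r with _ | ⟨w, l', r'⟩
    · exact absurd rfl hr
    · simp only [BT.nr]; omega
  have hsz := r.nr_le_size
  have eS : S = N ∪ F := by
    ext x
    rw [hS, mem_union]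
  have hN1 : N.card = (d + 1) * r.nr + (d + 1) := by rw [hN]; simp only [BT.nr]; ring
  have hF1 : (d + 1) * l.size + (d + 1) * r.size + (d + 1) ≤ F.card + N.card := by
    have : (d + 1) * (BT.node v l r).size = (d + 1) * l.size + (d + 1) * r.size + (d + 1) := by
      simp only [BT.size]; ring
    rw [← this]
    exact hF
  have hm1 : (d + 1) * r.nr ≤ (d + 1) * r.size := Nat.mul_le_mul_left _ hsz
  have hm2 : (d + 1) * 1 ≤ (d + 1) * r.nr := Nat.mul_le_mul_left _ hnr
  obtain ⟨H, hH, hH', ⟨N₁, hN₁, hN₁'⟩, F₁, hF₁, hF₁'⟩ := cut (f := f) (g := g) (N := N) (F := F) (eS ▸ hG) hlt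
    (a := d + 1) (b := (d + 1) * l.size) (by omega) (by omega) (by omega)
  have hNF : ∀ x, x ∈ N → x ∉ F := fun x hx hx' => lt_irrefl _ (hlt x hx x hx')
  have sN₁ : N₁ ⊆ N := fun x hx => ((hN₁' x).1 hx).1
  have sF₁ : F₁ ⊆ F := fun x hx => ((hF₁' x).1 hx).1
  have mN₂ : ∀ x, x ∈ N \ N₁ ↔ x ∈ N ∧ x ∉ H := by
    intro x
    rw [mem_sdiff, hN₁']
    tauto
  have mF₂ : ∀ x, x ∈ F \ F₁ ↔ x ∈ F ∧ x ∉ H := by
    intro x
    rw [mem_sdiff, hF₁']
    tauto
  have cN₂ : (N \ N₁).card = (d + 1) * r.nr := by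
    rw [card_sdiff_of_subset sN₁, hN₁, hN1]
    omega
  have cF₂ : (F \ F₁).card = F.card - (d + 1) * l.size := by
    rw [card_sdiff_of_subset sF₁, hF₁]
  obtain ⟨c₁, p1, p2, p3, p4, p5, p6⟩ := h1 N₁ F₁ (N₁ ∪ F₁) q (fun x => mem_union) (hG.mono (by
    rw [eS]; exact union_subset_union sN₁ sF₁)) (fun x hx y hy => hlt x (sN₁ hx) y (sF₁ hy)) (by
      rw [hN₁]; simp [BT.nr]) (by
      rw [hN₁, hF₁]; simp only [BT.size]; apply le_of_eq; ring) (fun h => by cases h)
  obtain ⟨c₂, q1, q2, q3, q4, q5, q6⟩ := h2 (N \ N₁) (F \ F₁) ((N \ N₁) ∪ (F \ F₁)) q (fun x => mem_union) (hG.mono (by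
    rw [eS]; exact union_subset_union sdiff_subset sdiff_subset)) (fun x hx y hy => hlt x (sdiff_subset hx) y
      (sdiff_subset hy)) cN₂ (by rw [cN₂, cF₂]; omega) (fun h => absurd h hr)
  -- labels
  have hnd' : v ∉ l.verts ∧ v ∉ r.verts ∧ l.verts.Nodup ∧ r.verts.Nodup ∧ ∀ x ∈ l.verts, x ∉ r.verts := by
    simp only [BT.verts, List.nodup_cons, List.mem_append, not_or, List.nodup_append] at hnd
    refine ⟨hnd.1.1, hnd.1.2, hnd.2.1, hnd.2.2.1, fun x hx hx' => hnd.2.2.2 x hx x hx' rfl⟩
  have hfst : ∀ x, x ∈ (BT.node v l BT.nil).verts ↔ x = v ∨ x ∈ l.verts := by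
    intro x
    simp only [BT.verts, List.append_nil, List.mem_cons]
  have hsep : ∀ x ∈ (BT.node v l BT.nil).verts, x ∉ r.verts := by
    intro x hx
    rw [hfst] at hx
    rcases hx with rfl | hx
    · exact hnd'.2.1
    · exact hnd'.2.2.2.2 x hx
  have hall : ∀ x, x ∈ (BT.node v l r).verts ↔ x ∈ (BT.node v l BT.nil).verts ∨ x ∈ r.verts := by
    intro x
    rw [hfst]
    simp only [BT.verts, List.mem_cons, List.mem_append]
    tauto
  let c : E → Option V := fun x => if x ∈ H then c₁ x else c₂ x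
  have cH : ∀ x, x ∈ H → c x = c₁ x := fun x hx => by simp only [c, if_pos hx]
  have cH' : ∀ x, x ∉ H → c x = c₂ x := fun x hx => by simp only [c, if_neg hx]
  have mS₁ : ∀ x, x ∈ N₁ ∪ F₁ ↔ x ∈ S ∧ x ∈ H := by
    intro x
    rw [mem_union, hN₁', hF₁', hS]
    tauto
  have mS₂ : ∀ x, x ∈ (N \ N₁) ∪ (F \ F₁) ↔ x ∈ S ∧ x ∉ H := by
    intro x
    rw [mem_union, mN₂, mF₂, hS]
    tauto
  have cl₁ : ∀ u ∈ (BT.node v l BT.nil).verts, cls c S (some u) = cls c₁ (N₁ ∪ F₁) (some u) := by
    intro u hu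
    ext x
    rw [mem_cls, mem_cls, mS₁]
    constructor
    · rintro ⟨hx, hc⟩
      by_cases hxH : x ∈ H
      · rw [cH x hxH] at hc
        exact ⟨⟨hx, hxH⟩, hc⟩
      · rw [cH' x hxH] at hc
        exact absurd (q1 x ((mS₂ x).2 ⟨hx, hxH⟩) u hc) (hsep u hu)
    · rintro ⟨⟨hx, hxH⟩, hc⟩
      exact ⟨hx, by rw [cH x hxH, hc]⟩
  have cl₂ : ∀ u ∈ r.verts, cls c S (some u) = cls c₂ ((N \ N₁) ∪ (F \ F₁)) (some u) := by
    intro u hu
    ext x
    rw [mem_cls, mem_cls, mS₂]
    constructor
    · rintro ⟨hx, hc⟩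
      by_cases hxH : x ∈ H
      · rw [cH x hxH] at hc
        exact absurd hu (hsep u (p1 x ((mS₁ x).2 ⟨hx, hxH⟩) u hc))
      · rw [cH' x hxH] at hc
        exact ⟨⟨hx, hxH⟩, hc⟩
    · rintro ⟨⟨hx, hxH⟩, hc⟩
      exact ⟨hx, by rw [cH' x hxH, hc]⟩
  have n₁ : cls c₁ N₁ none ⊆ cls c N none := by
    intro x hx
    rw [mem_cls, hN₁'] at hx
    rw [mem_cls]
    exact ⟨hx.1.1, by rw [cH x hx.1.2, hx.2]⟩
  have n₂ : cls c₂ (N \ N₁) none ⊆ cls c N none := by
    intro x hx
    rw [mem_cls, mN₂] at hx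
    rw [mem_cls]
    exact ⟨hx.1.1, by rw [cH' x hx.1.2, hx.2]⟩
  refine ⟨c, ?_, ?_, ?_, ?_, ?_, ?_⟩
  · intro x hx u hu
    rw [hall]
    by_cases hxH : x ∈ H
    · rw [cH x hxH] at hu
      exact Or.inl (p1 x ((mS₁ x).2 ⟨hx, hxH⟩) u hu)
    · rw [cH' x hxH] at hu
      exact Or.inr (q1 x ((mS₂ x).2 ⟨hx, hxH⟩) u hu)
  · intro x hx
    by_cases hxH : x ∈ H
    · rw [cH x hxH]
      exact p2 x ((hF₁' x).2 ⟨hx, hxH⟩)
    · rw [cH' x hxH]
      exact q2 x ((mF₂ x).2 ⟨hx, hxH⟩)
  · intro u hu
    rcases (hall u).1 hu with hu | hu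
    · rw [cl₁ u hu]; exact p3 u hu
    · rw [cl₂ u hu]; exact q3 u hu
  · intro u hu hur x hx hc
    simp only [BT.roots, List.mem_cons, not_or] at hur
    by_cases hxH : x ∈ H
    · rw [cH x hxH] at hc
      have hu' := p1 x ((mS₁ x).2 ⟨(hS x).2 (Or.inl hx), hxH⟩) u hc
      exact p4 u hu' (by simp only [BT.roots, List.mem_cons, List.not_mem_nil, or_false]; exact hur.1) x
        ((hN₁' x).2 ⟨hx, hxH⟩) hc
    · rw [cH' x hxH] at hc
      have hu' := q1 x ((mS₂ x).2 ⟨(hS x).2 (Or.inl hx), hxH⟩) u hc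
      exact q4 u hu' hur.2 x ((mN₂ x).2 ⟨hx, hxH⟩) hc
  · intro u hu
    simp only [BT.roots, List.mem_cons] at hu
    rcases hu with rfl | hu
    · rw [cl₁ u ((hfst u).2 (Or.inl rfl))]
      refine (p5 u (by simp only [BT.roots, List.mem_cons, true_or])).mono (Set.insert_subset_insert ?_) subset_rfl
      exact coe_subset.2 n₁
    · rw [cl₂ u (r.roots_subset u hu)]
      refine (q5 u hu).mono (Set.insert_subset_insert ?_) subset_rfl
      exact coe_subset.2 n₂
  · have hrel₁ : ∀ a b, a ∈ (BT.node v l BT.nil).verts → b ∈ (BT.node v l BT.nil).verts →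
        ((BT.node v l r).rel a b ↔ (BT.node v l BT.nil).rel a b) := by
      intro a b ha hb
      simp only [BT.rel, or_false]
      have : ¬ r.rel a b := fun h => hsep a ha (r.rel_mem h).1
      tauto
    have hrel₂ : ∀ a b, a ∈ r.verts → b ∈ r.verts → ((BT.node v l r).rel a b ↔ r.rel a b) := by
      intro a b ha hb
      simp only [BT.rel]
      have h3 : ¬ (a = v ∧ b ∈ l.roots) := fun h => hnd'.2.1 (h.1 ▸ ha)
      have h4 : ¬ l.rel a b := fun h => hnd'.2.2.2.2 a (l.rel_mem h).1 ha
      tauto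
    have hrel₃ : ∀ a b, a ∈ (BT.node v l BT.nil).verts → b ∈ r.verts →
        ¬ (BT.node v l r).rel a b ∧ ¬ (BT.node v l r).rel b a := by
      intro a b ha hb
      simp only [BT.rel]
      constructor
      · rintro (⟨_, h⟩ | h | h)
        · exact hnd'.2.2.2.2 b (l.roots_subset b h) hb
        · exact hnd'.2.2.2.2 b (l.rel_mem h).2 hb
        · exact hsep a ha (r.rel_mem h).1
      · rintro (⟨h, _⟩ | h | h)
        · exact hnd'.2.1 (h ▸ hb)
        · exact hnd'.2.2.2.2 b (l.rel_mem h).1 hb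
        · exact hsep a ha (r.rel_mem h).2
    have hno : ∀ a b, a ∈ (BT.node v l BT.nil).verts → b ∈ r.verts →
        ¬ Meet (cls c S (some a) : Set E) (cls c S (some b) : Set E) := by
      intro a b ha hb
      rw [cl₁ a ha, cl₂ b hb]
      refine not_meet_of_convex hH hH' ?_ ?_
      · intro x hx
        exact ((mS₁ x).1 (mem_cls.1 hx).1).2
      · intro x hx
        exact ((mS₂ x).1 (mem_cls.1 hx).1).2
    intro a ha b hb hab
    rcases (hall a).1 ha with ha | ha
    · rcases (hall b).1 hb with hb | hb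
      · rw [cl₁ a ha, cl₁ b hb, p6 a ha b hb hab, hrel₁ a b ha hb, hrel₁ b a hb ha]
      · have h3 := hrel₃ a b ha hb
        have h4 := hno a b ha hb
        tauto
    · rcases (hall b).1 hb with hb | hb
      · have h3 := hrel₃ b a hb ha
        have h4 := hno b a hb ha
        rw [meet_comm] at h4
        tauto
      · rw [cl₂ a ha, cl₂ b hb, q6 a ha b hb hab, hrel₂ a b ha hb, hrel₂ b a hb ha]

/-- **every forest can be placed** -/
theorem place [FiniteDimensional ℝ E] (f g : E →ₗ[ℝ] ℝ) {d : ℕ} (hd : Module.finrank ℝ E = d) (t : BT V)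
    (ht : t.verts.Nodup) : Place f g d t := by
  induction t with
  | nil => exact place_nil f g d
  | node v l r ihl ihr =>
    have hnd := ht
    simp only [BT.verts, List.nodup_cons, List.mem_append, not_or, List.nodup_append] at hnd
    have h1 := place_tree hd (f := f) (g := g) hnd.1.1 (attach_of_place (ihl hnd.2.1))
    by_cases hr : r = BT.nil
    · rw [hr]; exact h1
    · exact place_node ht hr h1 (ihr hnd.2.2.1)

end Pool.Agent.Helper33.TVT
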