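import Pool.Agent.Helper33.TVT.Place

/-!
# Finite trees as rooted forests
-/

set_option autoImplicit false

namespace Pool.Agent.Helper33.TVT

namespace BT

variable {V W : Type*}

/-- change of labels -/
def map (f : V → W) : BT V → BT W
  | nil => nil
  | node v l r => node (f v) (l.map f) (r.map f)

theorem verts_map (f : V → W) (t : BT V) : (t.map f).verts = t.verts.map f := by
  induction t with
  | nil => rfl
  | node v l r ihl ihr => simp only [map, verts, ihl, ihr, List.map_cons, List.map_append]

theorem roots_map (f : V → W) (t : BT V) : (t.map f).roots = t.roots.map f := by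
  induction t with
  | nil => rfl
  | node v l r _ ihr => simp only [map, roots, ihr, List.map_cons]

theorem rel_map (f : V → W) (t : BT V) (a b : W) : (t.map f).rel a b ↔ ∃ x y, f x = a ∧ f y = b ∧ t.rel x y := by
  induction t with
  | nil => simp only [map, rel, and_false, exists_false]
  | node v l r ihl ihr =>
    simp only [map, rel, ihl, ihr, roots_map, List.mem_map]
    constructor
    · rintro (⟨rfl, y, hy, rfl⟩ | ⟨x, y, h1, h2, h3⟩ | ⟨x, y, h1, h2, h3⟩)
      · exact ⟨v, y, rfl, rfl, Or.inl ⟨rfl, hy⟩⟩
      · exact ⟨x, y, h1, h2, Or.inr (Or.inl h3)⟩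
      · exact ⟨x, y, h1, h2, Or.inr (Or.inr h3)⟩
    · rintro ⟨x, y, rfl, rfl, (⟨rfl, hy⟩ | h | h)⟩
      · exact Or.inl ⟨rfl, y, hy, rfl⟩
      · exact Or.inr (Or.inl ⟨x, y, rfl, rfl, h⟩)
      · exact Or.inr (Or.inr ⟨x, y, rfl, rfl, h⟩)

open scoped Classical in
/-- insert `w` as a child of `u` -/
noncomputable def ins (u w : V) : BT V → BT V
  | nil => nil
  | node v l r => if v = u then node v (node w nil l) r else node v (l.ins u w) (r.ins u w)

theorem ins_of_notMem (u w : V) (t : BT V) (h : u ∉ t.verts) : t.ins u w = t := by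
  induction t with
  | nil => rfl
  | node v l r ihl ihr =>
    simp only [verts, List.mem_cons, List.mem_append, not_or] at h
    unfold ins
    rw [if_neg (fun h' => h.1 h'.symm), ihl h.2.1, ihr h.2.2]

theorem roots_ins (u w : V) (t : BT V) : (t.ins u w).roots = t.roots := by
  induction t with
  | nil => rfl
  | node v l r _ ihr =>
    unfold ins
    split_ifs with h
    · rfl
    · simp only [roots, ihr]

theorem ins_spec (u w : V) (t : BT V) (hnd : t.verts.Nodup) (h : u ∈ t.verts) :
    (t.ins u w).verts.Perm (w :: t.verts) ∧ ∀ a b, (t.ins u w).rel a b ↔ t.rel a b ∨ (a = u ∧ b = w) := by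
  induction t with
  | nil => simp [verts] at h
  | node v l r ihl ihr =>
    have hnd' := hnd
    simp only [verts, List.nodup_cons, List.mem_append, not_or, List.nodup_append] at hnd'
    unfold ins
    split_ifs with hv
    · subst hv
      constructor
      · simp only [verts, List.nil_append, List.cons_append]
        exact List.Perm.swap _ _ _
      · intro a b
        simp only [rel, roots, List.mem_cons, List.not_mem_nil, and_false, false_or]
        tauto
    · simp only [verts, List.mem_cons, List.mem_append] at h
      rcases h with h | h | h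
      · exact absurd h.symm hv
      · have hr : u ∉ r.verts := fun hu => hnd'.2.2.2 u h u hu rfl
        obtain ⟨h1, h2⟩ := ihl hnd'.2.1 h
        rw [ins_of_notMem u w r hr]
        constructor
        · simp only [verts]
          exact ((h1.append_right r.verts).cons v).trans (List.Perm.swap _ _ _)
        · intro a b
          simp only [rel, h2, roots_ins]
          tauto
      · have hl : u ∉ l.verts := fun hu => hnd'.2.2.2 u hu u h rfl
        obtain ⟨h1, h2⟩ := ihr hnd'.2.2.1 h
        rw [ins_of_notMem u w l hl]
        constructor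
        · simp only [verts]
          refine ((h1.append_left l.verts).cons v).trans ?_
          refine (List.Perm.cons v List.perm_middle).trans (List.Perm.swap _ _ _)
        · intro a b
          simp only [rel, h2]
          tauto

end BT

/-- every finite tree comes from a rooted tree -/
theorem exists_bt (n : ℕ) : ∀ (V : Type) [Fintype V] (G : SimpleGraph V), G.IsTree → Fintype.card V = n →
    ∃ (v₀ : V) (l : BT V), (BT.node v₀ l BT.nil).verts.Nodup ∧ (∀ v, v ∈ (BT.node v₀ l BT.nil).verts) ∧
      ∀ a b, G.Adj a b ↔ (BT.node v₀ l BT.nil).rel a b ∨ (BT.node v₀ l BT.nil).rel b a := by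
  classical
  induction n using Nat.strong_induction_on with
  | _ n ih =>
    intro V _ G hG hn
    rcases subsingleton_or_nontrivial V with hV | hV
    · obtain ⟨v₀⟩ := hG.connected.nonempty
      refine ⟨v₀, BT.nil, by simp [BT.verts], fun v => by simp [BT.verts, Subsingleton.elim v v₀], fun a b => ?_⟩
      have hab : a = b := Subsingleton.elim a b
      subst hab
      simp [BT.rel, BT.roots]
    · obtain ⟨w, hw⟩ := hG.exists_vert_degree_one_of_nontrivial
      obtain ⟨u, hu⟩ := (G.degree_eq_one_iff_existsUnique_adj).1 hw
      have hadj : ∀ b, G.Adj w b ↔ b = u := fun b => ⟨fun h => hu.2 b h, fun h => h ▸ hu.1⟩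
      have hwu : w ≠ u := hu.1.ne
      have hconn := hG.connected.induce_compl_singleton_of_degree_eq_one hw
      have htree : (G.induce {w}ᶜ).IsTree := ⟨hconn, hG.isAcyclic.induce _⟩
      have hcard : Fintype.card ({w}ᶜ : Set V) < n := by
        rw [← hn]
        exact Fintype.card_subtype_lt (x := w) (by simp)
      obtain ⟨v₀, l, h1, h2, h3⟩ := ih _ hcard _ _ htree rfl
      set t' : BT ({w}ᶜ : Set V) := BT.node v₀ l BT.nil with ht'
      set t : BT V := t'.map Subtype.val with ht
      have tn : t.verts.Nodup := by
        rw [ht, BT.verts_map]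
        exact h1.map Subtype.val_injective
      have tm : ∀ x, x ∈ t.verts ↔ x ≠ w := by
        intro x
        rw [ht, BT.verts_map, List.mem_map]
        constructor
        · rintro ⟨y, _, rfl⟩
          exact y.2
        · intro hx
          exact ⟨⟨x, hx⟩, h2 _, rfl⟩
      have tr : ∀ a b, (t.rel a b ∨ t.rel b a) ↔ (a ≠ w ∧ b ≠ w ∧ G.Adj a b) := by
        intro a b
        rw [ht, BT.rel_map, BT.rel_map]
        constructor
        · rintro (⟨x, y, rfl, rfl, h⟩ | ⟨x, y, rfl, rfl, h⟩)
          · exact ⟨x.2, y.2, (h3 x y).2 (Or.inl h)⟩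
          · exact ⟨y.2, x.2, (h3 y x).2 (Or.inr h)⟩
        · rintro ⟨ha, hb, h⟩
          rcases (h3 ⟨a, ha⟩ ⟨b, hb⟩).1 h with h' | h'
          · exact Or.inl ⟨_, _, rfl, rfl, h'⟩
          · exact Or.inr ⟨_, _, rfl, rfl, h'⟩
      have hut : u ∈ t.verts := (tm u).2 hwu.symm
      obtain ⟨s1, s2⟩ := BT.ins_spec u w t tn hut
      have shape : ∃ l', t.ins u w = BT.node v₀.1 l' BT.nil := by
        rw [ht, ht']
        simp only [BT.map]
        unfold BT.ins
        split_ifs
        · exact ⟨_, rfl⟩
        · exact ⟨_, rfl⟩
      obtain ⟨l', hl'⟩ := shape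
      rw [hl'] at s1 s2
      refine ⟨v₀.1, l', ?_, ?_, ?_⟩
      · rw [s1.nodup_iff, List.nodup_cons, tm]
        exact ⟨fun h => h rfl, tn⟩
      · intro v
        rw [s1.mem_iff, List.mem_cons, tm]
        tauto
      · intro a b
        rw [s2, s2]
        have h4 := tr a b
        constructor
        · intro h
          by_cases ha : a = w
          · subst ha
            rw [hadj] at h
            exact Or.inr (Or.inr ⟨h, rfl⟩)
          · by_cases hb : b = w
            · subst hb
              rw [G.adj_comm, hadj] at h
              exact Or.inl (Or.inr ⟨h, rfl⟩)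
            · rcases h4.2 ⟨ha, hb, h⟩ with h5 | h5
              · exact Or.inl (Or.inl h5)
              · exact Or.inr (Or.inl h5)
        · rintro ((h | ⟨rfl, rfl⟩) | (h | ⟨rfl, rfl⟩))
          · exact (h4.1 (Or.inl h)).2.2
          · exact hu.1.symm
          · exact (h4.1 (Or.inr h)).2.2
          · exact hu.1

end Pool.Agent.Helper33.TVT
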